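import Pool.Agent.Y166.DP.Stm

/-!
# The function field of the elliptic curve

The function field of the Weierstrass curve `y ^ 2 = x (x - 1) (x - lam)` of Mathlib, and the maps
between the function fields of this curve over different fields of constants.
-/

set_option autoImplicit false
set_option linter.unusedSectionVars false

namespace Pool.Agent.Y167.DP

open Pool.Agent.Y166.DP Polynomial WeierstrassCurve.Affine

section
variable {k K : Type} [Field k] [Field K] {lam : k}

/-- The homomorphism of the coordinate ring given by a point. -/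
noncomputable def hom (f : k →+* K) (x y : K) (h : y ^ 2 = x * (x - 1) * (x - f lam)) :
    (crv k lam).CoordinateRing →+* K :=
  AdjoinRoot.lift (eval₂RingHom f x) y (by
    rw [WeierstrassCurve.Affine.polynomial]
    simp only [crv, eval₂_add, eval₂_sub, eval₂_pow, eval₂_mul, eval₂_X, eval₂_C, coe_eval₂RingHom,
      map_neg, map_add, map_one, map_zero]
    simp only [eval₂_add, eval₂_C, eval₂_neg, eval₂_one, eval₂_zero]
    rw [h]
    ring)

theorem hom_mk_C (f : k →+* K) (x y : K) (h : y ^ 2 = x * (x - 1) * (x - f lam)) (p : k[X]) :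
    hom f x y h (CoordinateRing.mk _ (C p)) = p.eval₂ f x := by
  rw [hom, AdjoinRoot.lift_mk, eval₂_C, coe_eval₂RingHom]

theorem hom_mk_Y (f : k →+* K) (x y : K) (h : y ^ 2 = x * (x - 1) * (x - f lam)) :
    hom f x y h (CoordinateRing.mk _ X) = y := by
  rw [hom, AdjoinRoot.lift_mk, eval₂_X]

theorem hom_injective (f : k →+* K) (x y : K) (h : y ^ 2 = x * (x - 1) * (x - f lam))
    (hx : ∀ p : k[X], p.eval₂ f x = 0 → p = 0) : Function.Injective (hom f x y h) := by
  rw [injective_iff_map_eq_zero]
  intro z hz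
  obtain ⟨p, q, rfl⟩ := CoordinateRing.exists_smul_basis_eq z
  have h1 : p.eval₂ f x + q.eval₂ f x * y = 0 := by
    have := hz
    rwa [map_add, CoordinateRing.smul, CoordinateRing.smul, map_mul, map_mul, hom_mk_C, hom_mk_C,
      hom_mk_Y, map_one, mul_one] at this
  have h2 : (Algebra.norm k[X] (p • (1 : (crv k lam).CoordinateRing) +
      q • CoordinateRing.mk (crv k lam) X)) = 0 := by
    apply hx
    rw [CoordinateRing.norm_smul_basis]
    simp only [crv, eval₂_add, eval₂_sub, eval₂_pow, eval₂_mul, eval₂_X, eval₂_C,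
      map_neg, map_add, map_one, map_zero, eval₂_zero, eval₂_neg, eval₂_one]
    have h3 : p.eval₂ f x = - (q.eval₂ f x * y) := by linear_combination h1
    rw [h3]
    linear_combination (q.eval₂ f x) ^ 2 * h
  have h4 := CoordinateRing.degree_norm_smul_basis (W' := crv k lam) p q
  rw [h2, degree_zero] at h4
  have h5 : 2 • p.degree ≤ ⊥ := by rw [h4]; exact le_max_left _ _
  have h6 : 2 • q.degree + 3 ≤ ⊥ := by rw [h4]; exact le_max_right _ _
  have hp : p = 0 := by
    by_contra hp
    rw [degree_eq_natDegree hp] at h5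
    rw [le_bot_iff] at h5
    exact absurd h5 (by rw [← Nat.cast_smul_eq_nsmul ℕ]; exact WithBot.coe_ne_bot)
  have hq : q = 0 := by
    by_contra hq
    rw [degree_eq_natDegree hq] at h6
    rw [le_bot_iff] at h6
    exact absurd h6 (by exact WithBot.coe_ne_bot)
  rw [hp, hq, zero_smul, zero_smul, add_zero]

end

/-- A9: the function field of the elliptic curve in Mathlib. -/
theorem stmModel : StmModel := by
  intro k _ _ lam h0 h1
  have hsm : ∀ c : k, algebraMap k (KB k lam) c =
      algebraMap (crv k lam).CoordinateRing (KB k lam) (CoordinateRing.mk (crv k lam) (C (C c))) := by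
    intro c
    rfl
  have hinj : Function.Injective (algebraMap (crv k lam).CoordinateRing (KB k lam)) :=
    IsFractionRing.injective _ _
  have hpol : ∀ p : k[X], aeval (xB k lam) p =
      algebraMap (crv k lam).CoordinateRing (KB k lam) (CoordinateRing.mk (crv k lam) (C p)) := by
    intro p
    induction p using Polynomial.induction_on' with
    | add p q hp hq => rw [map_add, hp, hq, ← map_add, ← map_add, ← C_add]
    | monomial n a =>
      rw [← C_mul_X_pow_eq_monomial, map_mul, aeval_C, map_pow, aeval_X, hsm, xB, C_mul, C_pow,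
        map_mul, map_mul, map_pow, map_pow]
  refine ⟨h0, h1, ?_, ?_, ?_⟩
  · have hh : CoordinateRing.mk (crv k lam) X ^ 2 = CoordinateRing.mk (crv k lam)
        (C (X * (X - 1) * (X - C lam))) := by
      rw [← map_pow, AdjoinRoot.mk_eq_mk]
      refine ⟨1, ?_⟩
      rw [WeierstrassCurve.Affine.polynomial]
      simp only [crv, C_add, C_mul, C_sub, C_neg, C_pow, C_0, C_1]
      ring
    rw [yB, ← map_pow, hh, xB, hsm]
    simp only [map_mul, map_sub, map_one]
  · rw [transcendental_iff]
    intro p hp
    rw [hpol] at hp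
    have h2 : CoordinateRing.mk (crv k lam) (C p) = 0 := hinj (by rw [hp, map_zero])
    have h3 : p • (1 : (crv k lam).CoordinateRing) + (0 : k[X]) • CoordinateRing.mk (crv k lam) X
        = 0 := by
      rw [zero_smul, add_zero, CoordinateRing.smul, mul_one, h2]
    exact (CoordinateRing.smul_basis_eq_zero h3).1
  · rw [eq_top_iff]
    intro z _
    obtain ⟨a, b, hb, rfl⟩ := IsFractionRing.div_surjective (A := (crv k lam).CoordinateRing) z
    have key : ∀ a : (crv k lam).CoordinateRing, algebraMap (crv k lam).CoordinateRing (KB k lam) a ∈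
        IntermediateField.adjoin k {xB k lam, yB k lam} := by
      intro a
      obtain ⟨p, q, rfl⟩ := CoordinateRing.exists_smul_basis_eq a
      have hx : xB k lam ∈ IntermediateField.adjoin k {xB k lam, yB k lam} :=
        IntermediateField.subset_adjoin _ _ (by simp)
      have hy : yB k lam ∈ IntermediateField.adjoin k {xB k lam, yB k lam} :=
        IntermediateField.subset_adjoin _ _ (by simp)
      have hp : ∀ p : k[X], aeval (xB k lam) p ∈
          IntermediateField.adjoin k {xB k lam, yB k lam} := by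
        intro p
        rw [aeval_eq_sum_range]
        refine sum_mem fun i _ => ?_
        rw [Algebra.smul_def]
        exact mul_mem (algebraMap_mem _ _) (pow_mem hx i)
      rw [map_add, CoordinateRing.smul, CoordinateRing.smul, map_mul, map_mul, map_one, mul_one,
        ← hpol, ← hpol]
      exact add_mem (hp p) (mul_mem (hp q) hy)
    exact div_mem (key a) (key b)

/-- A8: function fields over different constants. -/
theorem stmMap : StmMap := by
  intro k₀ K₀ k K _ _ _ _ _ _ _ _ lam x₀ y₀ x y h₀ h
  have hx₀ : ∀ p : k₀[X], p.eval₂ (algebraMap k₀ K₀) x₀ = 0 → p = 0 := by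
    intro p hp
    exact (transcendental_iff.mp h₀.tr) p hp
  have hx : ∀ p : k₀[X], p.eval₂ ((algebraMap k K).comp (algebraMap k₀ k)) x = 0 → p = 0 := by
    intro p hp
    rw [← eval₂_map] at hp
    have := (transcendental_iff.mp h.tr) _ hp
    exact (Polynomial.map_eq_zero_iff (algebraMap k₀ k).injective).mp this
  have e₀ : y₀ ^ 2 = x₀ * (x₀ - 1) * (x₀ - algebraMap k₀ K₀ lam) := h₀.eqn
  have e : y ^ 2 = x * (x - 1) * (x - ((algebraMap k K).comp (algebraMap k₀ k)) lam) := h.eqn
  have i₀ := hom_injective (algebraMap k₀ K₀) x₀ y₀ e₀ hx₀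
  have i := hom_injective ((algebraMap k K).comp (algebraMap k₀ k)) x y e hx
  let g₀ : KB k₀ lam →+* K₀ := IsFractionRing.lift i₀
  let g : KB k₀ lam →+* K := IsFractionRing.lift i
  have hg₀ : ∀ a, g₀ (algebraMap _ _ a) = hom (algebraMap k₀ K₀) x₀ y₀ e₀ a := fun a =>
    IsFractionRing.lift_algebraMap i₀ a
  have hg : ∀ a, g (algebraMap _ _ a) = hom ((algebraMap k K).comp (algebraMap k₀ k)) x y e a :=
    fun a => IsFractionRing.lift_algebraMap i a
  have cx₀ : ∀ p, g₀ (algebraMap _ _ (CoordinateRing.mk (crv k₀ lam) (C p))) =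
      p.eval₂ (algebraMap k₀ K₀) x₀ := fun p => by rw [hg₀, hom_mk_C]
  have cx : ∀ p, g (algebraMap _ _ (CoordinateRing.mk (crv k₀ lam) (C p))) =
      p.eval₂ ((algebraMap k K).comp (algebraMap k₀ k)) x := fun p => by rw [hg, hom_mk_C]
  have cy₀ : g₀ (yB k₀ lam) = y₀ := by rw [yB, hg₀, hom_mk_Y]
  have cy : g (yB k₀ lam) = y := by rw [yB, hg, hom_mk_Y]
  have cx₀' : g₀ (xB k₀ lam) = x₀ := by rw [xB, cx₀, eval₂_X]
  have cx' : g (xB k₀ lam) = x := by rw [xB, cx, eval₂_X]
  have cc₀ : ∀ c : k₀, g₀ (algebraMap _ _ (CoordinateRing.mk (crv k₀ lam) (C (C c)))) =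
      algebraMap k₀ K₀ c := fun c => by rw [cx₀, eval₂_C]
  have cc : ∀ c : k₀, g (algebraMap _ _ (CoordinateRing.mk (crv k₀ lam) (C (C c)))) =
      algebraMap k K (algebraMap k₀ k c) := fun c => by rw [cx, eval₂_C]; rfl
  have hsurj : Function.Surjective g₀ := by
    let F : IntermediateField k₀ K₀ := g₀.fieldRange.toIntermediateField fun c => ⟨_, cc₀ c⟩
    have hF : F = ⊤ := by
      rw [eq_top_iff, ← h₀.gen, IntermediateField.adjoin_le_iff]
      intro z hz
      rcases hz with rfl | hz
      · exact ⟨_, cx₀'⟩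
      · rw [Set.mem_singleton_iff] at hz
        rw [hz]
        exact ⟨_, cy₀⟩
    intro z
    have : z ∈ F := by rw [hF]; trivial
    exact this
  let E := RingEquiv.ofBijective g₀ ⟨g₀.injective, hsurj⟩
  have hE : ∀ a, E.symm (g₀ a) = a := fun a => E.symm_apply_apply a
  refine ⟨g.comp E.symm.toRingHom, ?_, ?_, fun c => ?_⟩
  · change g (E.symm x₀) = x
    rw [← cx₀', hE, cx']
  · change g (E.symm y₀) = y
    rw [← cy₀, hE, cy]
  · change g (E.symm _) = _
    rw [← cc₀, hE, cc]

end Pool.Agent.Y167.DP
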